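import Mathlib

/-!
Conjugacy separability of free groups, by an elementary argument: the cycle graph of a cyclically
reduced word is completed to a permutation action, with an integer valued cocycle modulo `M`.
-/

set_option linter.unusedSectionVars false

namespace Pool.Agent.EX61

section construction

variable {α : Type} {n : ℕ} [NeZero n] (y : ZMod n → α × Bool)

/-- the cyclic word `y` has no cancelling neighbours -/
def CycRed : Prop := ∀ (i : ZMod n) (x : α),
  ¬ (y i = (x, true) ∧ y (i + 1) = (x, false)) ∧ ¬ (y i = (x, false) ∧ y (i + 1) = (x, true))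

lemma exists_perm (h : CycRed y) (x : α) : ∃ P : Equiv.Perm (ZMod n),
    (∀ i, y i = (x, true) → P (i + 1) = i) ∧ (∀ i, y i = (x, false) → P i = i + 1) := by
  classical
  let S : Finset (ZMod n) := Finset.univ.filter fun c => y (c - 1) = (x, true) ∨ y c = (x, false)
  let f : ZMod n → ZMod n := fun c => if y (c - 1) = (x, true) then c - 1 else c + 1
  have hinj : Set.InjOn f (S : Set (ZMod n)) := by
    intro c hc d hd hcd
    have hc' : y (c - 1) = (x, true) ∨ y c = (x, false) := by simpa [S] using hc
    have hd' : y (d - 1) = (x, true) ∨ y d = (x, false) := by simpa [S] using hd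
    simp only [f] at hcd
    by_cases h1 : y (c - 1) = (x, true)
    · by_cases h2 : y (d - 1) = (x, true)
      · rw [if_pos h1, if_pos h2] at hcd
        exact sub_left_injective hcd
      · rw [if_pos h1, if_neg h2] at hcd
        have h3 := hd'.resolve_left h2
        exact absurd ⟨h3, by rw [← hcd]; exact h1⟩ (h d x).2
    · by_cases h2 : y (d - 1) = (x, true)
      · rw [if_neg h1, if_pos h2] at hcd
        have h3 := hc'.resolve_left h1
        exact absurd ⟨h3, by rw [hcd]; exact h2⟩ (h c x).2
      · rw [if_neg h1, if_neg h2] at hcd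
        exact add_left_injective 1 hcd
  obtain ⟨g, hg⟩ := Finset.exists_equiv_extend_of_card_eq (t := (Finset.univ : Finset (ZMod n)))
    (by rw [Finset.card_univ]) (s := S) (f := f) (Finset.subset_univ _) hinj
  refine ⟨g.trans (Equiv.subtypeUnivEquiv (fun z => Finset.mem_univ z)), ?_, ?_⟩
  · intro i hi
    have hmem : i + 1 ∈ S := by simp [S, hi]
    have h1 := hg (i + 1) hmem
    simp only [f] at h1
    rw [if_pos (by simpa using hi)] at h1
    simpa using h1
  · intro i hi
    have hmem : i ∈ S := by simp [S, hi]
    have h1 := hg i hmem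
    simp only [f] at h1
    rw [if_neg (fun h2 => (h (i - 1) x).1 ⟨h2, by simpa using hi⟩)] at h1
    simpa using h1

variable (P : α → Equiv.Perm (ZMod n))

open Classical in
/-- the edge weights -/
noncomputable def mu (x : α) (c : ZMod n) : ℤ :=
  (if y (c - 1) = (x, true) then 1 else 0) - (if y c = (x, false) then 1 else 0)

variable (M : ℕ)

/-- action of a generator -/
noncomputable def gen (x : α) : Equiv.Perm (ZMod n × ZMod M) where
  toFun p := (P x p.1, p.2 + ((mu y x p.1 : ℤ) : ZMod M))
  invFun p := ((P x).symm p.1, p.2 - ((mu y x ((P x).symm p.1) : ℤ) : ZMod M))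
  left_inv p := by simp
  right_inv p := by simp

/-- one step -/
noncomputable def step (l : α × Bool) (c : ZMod n) : ZMod n :=
  cond l.2 (P l.1 c) ((P l.1).symm c)

/-- weight of one step -/
noncomputable def sg (l : α × Bool) (c : ZMod n) : ℤ :=
  cond l.2 (mu y l.1 c) (-mu y l.1 ((P l.1).symm c))

/-- end point of the path of a word -/
noncomputable def endp : List (α × Bool) → ZMod n → ZMod n
  | [], c => c
  | l :: L, c => step P l (endp L c)

/-- weight of the path of a word -/
noncomputable def wt : List (α × Bool) → ZMod n → ℤ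
  | [], _ => 0
  | l :: L, c => wt L c + sg y P l (endp P L c)

/-- the finite representation -/
noncomputable def Phi : FreeGroup α →* Equiv.Perm (ZMod n × ZMod M) :=
  FreeGroup.lift (gen y P M)

lemma Phi_mk (L : List (α × Bool)) (c : ZMod n) (a : ZMod M) :
    Phi y P M (FreeGroup.mk L) (c, a) = (endp P L c, a + ((wt y P L c : ℤ) : ZMod M)) := by
  unfold Phi
  rw [FreeGroup.lift_mk]
  induction L with
  | nil => simp [endp, wt]
  | cons l L ih =>
    rw [List.map_cons, List.prod_cons, Equiv.Perm.mul_apply, ih]
    rcases l with ⟨x, b⟩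
    cases b
    · simp only [cond_false, endp, wt, step, sg]
      have : ((gen y P M x)⁻¹ : Equiv.Perm (ZMod n × ZMod M))
          (endp P L c, a + ((wt y P L c : ℤ) : ZMod M)) =
          ((P x).symm (endp P L c), a + ((wt y P L c : ℤ) : ZMod M)
            - ((mu y x ((P x).symm (endp P L c)) : ℤ) : ZMod M)) := rfl
      rw [this]
      push_cast
      rw [sub_eq_add_neg, add_assoc]
    · simp only [cond_true, endp, wt, step, sg]
      have : (gen y P M x : Equiv.Perm (ZMod n × ZMod M))
          (endp P L c, a + ((wt y P L c : ℤ) : ZMod M)) =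
          (P x (endp P L c), a + ((wt y P L c : ℤ) : ZMod M)
            + ((mu y x (endp P L c) : ℤ) : ZMod M)) := rfl
      rw [this]
      push_cast
      rw [add_assoc]

lemma mu_le (x : α) (c : ZMod n) : mu y x c ≤ 1 ∧ -1 ≤ mu y x c := by
  unfold mu
  split_ifs <;> constructor <;> norm_num

lemma sg_le (l : α × Bool) (c : ZMod n) : sg y P l c ≤ 1 ∧ -1 ≤ sg y P l c := by
  unfold sg
  rcases l with ⟨x, b⟩
  cases b
  · simp only [cond_false]
    have := mu_le y x ((P x).symm c)
    constructor <;> linarith [this.1, this.2]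
  · simp only [cond_true]
    exact mu_le y x c

lemma wt_le (L : List (α × Bool)) (c : ZMod n) :
    wt y P L c ≤ L.length ∧ -(L.length : ℤ) ≤ wt y P L c := by
  induction L with
  | nil => simp [wt]
  | cons l L ih =>
    have h := sg_le y P l (endp P L c)
    simp only [wt, List.length_cons]
    push_cast
    constructor <;> linarith [ih.1, ih.2, h.1, h.2]

variable (hP1 : ∀ x i, y i = (x, true) → P x (i + 1) = i)
  (hP2 : ∀ x i, y i = (x, false) → P x i = i + 1)

include hP1 hP2

/-- a step of weight one follows the cyclic word -/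
lemma sg_eq_one {l : α × Bool} {c : ZMod n} (h : sg y P l c = 1) :
    y (c - 1) = l ∧ step P l c = c - 1 := by
  rcases l with ⟨x, b⟩
  cases b
  · simp only [sg, cond_false, mu] at h
    have h1 : y ((P x).symm c) = (x, false) := by
      by_contra h2
      rw [if_neg h2] at h
      split_ifs at h <;> norm_num at h
    have h2 := hP2 x _ h1
    rw [Equiv.apply_symm_apply] at h2
    have h3 : (P x).symm c = c - 1 := eq_sub_of_add_eq h2.symm
    constructor
    · rw [← h3]; exact h1
    · simp only [step, cond_false]; exact h3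
  · simp only [sg, cond_true, mu] at h
    have h1 : y (c - 1) = (x, true) := by
      by_contra h2
      rw [if_neg h2] at h
      split_ifs at h <;> norm_num at h
    have h2 := hP1 x _ h1
    rw [sub_add_cancel] at h2
    exact ⟨h1, by simpa only [step, cond_true] using h2⟩

/-- the steps of the cyclic word itself have weight one -/
lemma sg_self (hy : CycRed y) (i : ZMod n) :
    sg y P (y i) (i + 1) = 1 ∧ step P (y i) (i + 1) = i := by
  rcases hl : y i with ⟨x, b⟩
  cases b
  · have h1 := hP2 x i hl
    have h2 : (P x).symm (i + 1) = i := by rw [← h1, Equiv.symm_apply_apply]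
    have h3 : y (i - 1) ≠ (x, true) := fun h4 =>
      (hy (i - 1) x).1 ⟨h4, by rw [sub_add_cancel]; exact hl⟩
    have h4 : sg y P (x, false) (i + 1) = -mu y x i := by
      simp only [sg, cond_false]
      rw [h2]
    constructor
    · rw [h4, mu, if_neg h3, if_pos hl]; norm_num
    · simp only [step, cond_false]; exact h2
  · have h1 := hP1 x i hl
    have h3 : y (i + 1) ≠ (x, false) := fun h4 => (hy i x).1 ⟨hl, h4⟩
    have h5 : y (i + 1 - 1) = (x, true) := by rw [add_sub_cancel_right]; exact hl
    constructor
    · simp only [sg, cond_true]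
      rw [mu, if_neg h3, if_pos h5]; norm_num
    · simp only [step, cond_true]; exact h1

/-- a word of maximal weight is read along the cyclic word -/
lemma wt_eq_length (L : List (α × Bool)) (c : ZMod n) (h : wt y P L c = L.length) :
    endp P L c = c - (L.length : ZMod n) ∧
    ∀ (s : ℕ) (hs : s < L.length), L[s] = y (c - (L.length : ZMod n) + s) := by
  induction L with
  | nil => simp [endp]
  | cons l L ih =>
    have hb := wt_le y P L c
    have hs1 := sg_le y P l (endp P L c)
    simp only [wt, List.length_cons] at h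
    push_cast at h
    have h1 : wt y P L c = L.length := by linarith [hb.1, hs1.1]
    have h2 : sg y P l (endp P L c) = 1 := by linarith
    obtain ⟨i1, i2⟩ := ih h1
    obtain ⟨j1, j2⟩ := sg_eq_one y P hP1 hP2 h2
    rw [i1] at j1 j2
    have e : c - ((L.length : ℕ) : ZMod n) - 1 = c - ((L.length + 1 : ℕ) : ZMod n) := by
      push_cast; ring
    rw [e] at j1 j2
    constructor
    · simp only [endp, List.length_cons]
      rw [i1, j2]
    · intro s hs
      rcases s with _ | s
      · simp only [List.getElem_cons_zero, List.length_cons]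
        rw [Nat.cast_zero, add_zero]
        exact j1.symm
      · simp only [List.getElem_cons_succ, List.length_cons]
        rw [i2 s (by simpa using hs), ← e]
        congr 1
        push_cast
        ring

/-- the word itself has weight `n` and is closed -/
lemma wt_self (hy : CycRed y) (L : List (α × Bool)) (hL : L.length = n)
    (hLy : ∀ (s : ℕ) (hs : s < L.length), L[s] = y (s : ZMod n)) :
    endp P L 0 = 0 ∧ wt y P L 0 = n := by
  have key : ∀ j : ℕ, j ≤ n → endp P (L.drop (n - j)) 0 = ((n - j : ℕ) : ZMod n) ∧
      wt y P (L.drop (n - j)) 0 = j := by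
    intro j
    induction j with
    | zero =>
      intro _
      rw [Nat.sub_zero, List.drop_eq_nil_of_le (by omega)]
      simp [endp, wt]
    | succ j ih =>
      intro hj
      obtain ⟨i1, i2⟩ := ih (by omega)
      have e : n - j = (n - (j + 1)) + 1 := by omega
      have hlt : n - (j + 1) < L.length := by omega
      rw [List.drop_eq_getElem_cons hlt, ← e]
      simp only [endp, wt]
      rw [i1, i2, hLy _ hlt]
      have h1 := sg_self y P hP1 hP2 hy ((n - (j + 1) : ℕ) : ZMod n)
      have e2 : ((n - j : ℕ) : ZMod n) = ((n - (j + 1) : ℕ) : ZMod n) + 1 := by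
        rw [e]; push_cast; ring
      rw [e2, h1.1, h1.2]
      constructor
      · rfl
      · push_cast; ring
  have h := key n le_rfl
  rw [Nat.sub_self, List.drop_zero] at h
  simpa using h

end construction

section separation

variable {α : Type}

/-- rotations of a word define conjugate elements -/
lemma isConj_mk_append (A B : List (α × Bool)) :
    IsConj (FreeGroup.mk (A ++ B)) (FreeGroup.mk (B ++ A)) := by
  rw [isConj_iff]
  refine ⟨(FreeGroup.mk A)⁻¹, ?_⟩
  rw [← FreeGroup.mul_mk, ← FreeGroup.mul_mk]
  group

/-- Separation for a cyclically reduced word `L` of length `n ≥ 1` and a word `L'` of length at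
most `n`. -/
lemma separate_words {n : ℕ} [NeZero n] (y : ZMod n → α × Bool) (hy : CycRed y)
    (L L' : List (α × Bool)) (hL : L.length = n)
    (hLy : ∀ (s : ℕ) (hs : s < L.length), L[s] = y (s : ZMod n))
    (hL' : L'.length ≤ n) (hnc : ¬ IsConj (FreeGroup.mk L) (FreeGroup.mk L')) :
    ∃ (H : Type) (_ : Group H) (_ : Finite H) (φ : FreeGroup α →* H),
      ¬ IsConj (φ (FreeGroup.mk L)) (φ (FreeGroup.mk L')) := by
  classical
  choose P hP1 hP2 using exists_perm y hy
  let M : ℕ := 2 * n + 1
  have hM : NeZero M := ⟨by omega⟩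
  let Φ := Phi y P M
  refine ⟨Φ.range, inferInstance, inferInstance, Φ.rangeRestrict, fun hc => ?_⟩
  obtain ⟨h, hh⟩ := isConj_iff.1 hc
  obtain ⟨g, hg⟩ := Φ.rangeRestrict_surjective h
  have h1 : Φ g * Φ (FreeGroup.mk L) * (Φ g)⁻¹ = Φ (FreeGroup.mk L') := by
    have := congrArg Subtype.val hh
    rw [← hg] at this
    simpa using this
  -- the point with weight n
  obtain ⟨w1, w2⟩ := wt_self y P hP1 hP2 hy L hL hLy
  have hu : Φ (FreeGroup.mk L) (0, 0) = (0, ((n : ℤ) : ZMod M)) := by
    have := Phi_mk y P M L 0 0
    rw [w1, w2, zero_add] at this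
    exact this
  obtain ⟨Lg, rfl⟩ : ∃ Lg, g = FreeGroup.mk Lg := ⟨g.toWord, FreeGroup.mk_toWord.symm⟩
  -- transport
  set ω : ZMod n × ZMod M := Φ (FreeGroup.mk Lg) (0, 0) with hω
  have h2 : Φ (FreeGroup.mk L') ω = (ω.1, ω.2 + ((n : ℤ) : ZMod M)) := by
    have hinv : (Φ (FreeGroup.mk Lg))⁻¹ ω = (0, 0) := by
      rw [hω]; exact Equiv.symm_apply_apply _ _
    rw [← h1, Equiv.Perm.mul_apply, Equiv.Perm.mul_apply, hinv, hu, hω,
      Phi_mk, Phi_mk, zero_add, add_comm]
  obtain ⟨c, a⟩ := ω
  rw [Phi_mk] at h2
  have h3 : endp P L' c = c := congrArg Prod.fst h2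
  have h4 : ((wt y P L' c : ℤ) : ZMod M) = ((n : ℤ) : ZMod M) := by
    have := congrArg Prod.snd h2
    exact add_left_cancel this
  have h5 := wt_le y P L' c
  have h6 : wt y P L' c = n := by
    have hd : (M : ℤ) ∣ wt y P L' c - n := by
      rw [← ZMod.intCast_zmod_eq_zero_iff_dvd, Int.cast_sub, h4, sub_self]
    have hlt : |wt y P L' c - n| < (M : ℤ) := by
      rw [abs_lt]
      simp only [M]
      push_cast
      have : (L'.length : ℤ) ≤ n := by exact_mod_cast hL'
      constructor <;> linarith [h5.1, h5.2]
    have := Int.eq_zero_of_abs_lt_dvd hd hlt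
    omega
  have h7 : L'.length = n := by
    have : (n : ℤ) ≤ L'.length := h6 ▸ h5.1
    have : n ≤ L'.length := by exact_mod_cast this
    omega
  obtain ⟨k1, k2⟩ := wt_eq_length y P hP1 hP2 L' c (by rw [h6, h7])
  have e0 : c - ((L'.length : ℕ) : ZMod n) = c := by rw [h7, ZMod.natCast_self, sub_zero]
  -- L' is a rotation of L
  apply hnc
  have hcv : c.val < n := ZMod.val_lt c
  have hrot : L' = L.rotate c.val := by
    apply List.ext_getElem
    · rw [List.length_rotate, h7, hL]
    · intro s hs hs'
      rw [k2 s hs, e0, List.getElem_rotate, hLy]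
      congr 1
      rw [hL, ZMod.natCast_mod]
      push_cast
      rw [ZMod.natCast_val, ZMod.cast_id, add_comm]
  rw [hrot, List.rotate_eq_drop_append_take (by omega)]
  have := isConj_mk_append (L.take c.val) (L.drop c.val)
  rwa [List.take_append_drop] at this

open FreeGroup in
lemma cycRed_of {L : List (α × Bool)} (hL : IsCyclicallyReduced L) {n : ℕ} [NeZero n]
    (hn : L.length = n) :
    CycRed (fun i : ZMod n => L[i.val]'(by rw [hn]; exact ZMod.val_lt i)) := by
  have hpos : 0 < n := Nat.pos_of_ne_zero (NeZero.ne n)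
  have key : ∀ i : ZMod n, (L[i.val]'(by rw [hn]; exact ZMod.val_lt i)).1 =
      (L[(i + 1).val]'(by rw [hn]; exact ZMod.val_lt _)).1 →
      (L[i.val]'(by rw [hn]; exact ZMod.val_lt i)).2 =
      (L[(i + 1).val]'(by rw [hn]; exact ZMod.val_lt _)).2 := by
    intro i
    have hi : i.val < n := ZMod.val_lt i
    have e : (i + 1).val = (i.val + 1) % n := by
      conv_lhs => rw [← ZMod.natCast_zmod_val i]
      rw [← ZMod.val_natCast]
      push_cast
      rfl
    by_cases h : i.val + 1 < n
    · have e2 : (i + 1).val = i.val + 1 := by rw [e, Nat.mod_eq_of_lt h]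
      simp only [e2]
      have hch := hL.1
      unfold FreeGroup.IsReduced at hch
      exact (List.isChain_iff_getElem.1 hch) i.val (by omega)
    · have e3 : i.val + 1 = n := by omega
      have e2 : (i + 1).val = 0 := by rw [e, e3, Nat.mod_self]
      simp only [e2]
      have e4 : i.val = L.length - 1 := by omega
      simp only [e4]
      have hne : L ≠ [] := by
        intro h0; rw [h0] at hn; simp at hn; omega
      apply hL.2
      · rw [List.getLast?_eq_getLast_of_ne_nil hne, List.getLast_eq_getElem]
        exact rfl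
      · rw [List.head?_eq_getElem?, List.getElem?_eq_getElem (by omega)]
        exact rfl
  intro i x
  constructor
  · rintro ⟨h1, h2⟩
    have := key i (by simp only at h1 h2; rw [h1, h2])
    simp only at h1 h2
    rw [h1, h2] at this
    exact absurd this (by simp)
  · rintro ⟨h1, h2⟩
    have := key i (by simp only at h1 h2; rw [h1, h2])
    simp only at h1 h2
    rw [h1, h2] at this
    exact absurd this (by simp)

open FreeGroup in
/-- **Conjugacy separability of free groups.** -/
theorem conj_separable (u v : FreeGroup α) (huv : ¬ IsConj u v) :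
    ∃ (H : Type) (_ : Group H) (_ : Finite H) (φ : FreeGroup α →* H), ¬ IsConj (φ u) (φ v) := by
  classical
  -- one-sided version
  have main : ∀ (R S : List (α × Bool)), IsCyclicallyReduced R → S.length ≤ R.length →
      ¬ IsConj (FreeGroup.mk R) (FreeGroup.mk S) →
      ∃ (H : Type) (_ : Group H) (_ : Finite H) (φ : FreeGroup α →* H),
        ¬ IsConj (φ (FreeGroup.mk R)) (φ (FreeGroup.mk S)) := by
    intro R S hR hSR hnc
    have hn0 : R.length ≠ 0 := by
      intro h0
      have h1 : R = [] := List.length_eq_zero_iff.1 h0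
      have h2 : S = [] := List.length_eq_zero_iff.1 (by omega)
      rw [h1, h2] at hnc
      exact hnc (IsConj.refl _)
    have : NeZero R.length := ⟨hn0⟩
    refine separate_words (n := R.length) _ (cycRed_of hR rfl) R S rfl ?_ hSR hnc
    intro s hs
    congr 1
    rw [ZMod.val_natCast, Nat.mod_eq_of_lt hs]
  have hred : ∀ w : FreeGroup α, ∃ R : List (α × Bool), IsCyclicallyReduced R ∧
      IsConj w (FreeGroup.mk R) := by
    intro w
    refine ⟨reduceCyclically w.toWord, reduceCyclically.isCyclicallyReduced isReduced_toWord, ?_⟩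
    have h := reduceCyclically.conj_conjugator_reduceCyclically w.toWord
    have h2 : w = FreeGroup.mk (reduceCyclically.conjugator w.toWord) *
        FreeGroup.mk (reduceCyclically w.toWord) *
        (FreeGroup.mk (reduceCyclically.conjugator w.toWord))⁻¹ := by
      conv_lhs => rw [← FreeGroup.mk_toWord (x := w), ← h]
      rw [← FreeGroup.mul_mk, ← FreeGroup.mul_mk, ← FreeGroup.inv_mk]
    refine (isConj_iff.2 ⟨FreeGroup.mk (reduceCyclically.conjugator w.toWord), ?_⟩).symm
    exact h2.symm
  obtain ⟨R, hR, huR⟩ := hred u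
  obtain ⟨S, hS, hvS⟩ := hred v
  have hRS : ¬ IsConj (FreeGroup.mk R) (FreeGroup.mk S) := fun h =>
    huv (huR.trans (h.trans hvS.symm))
  rcases le_total S.length R.length with h | h
  · obtain ⟨H, i1, i2, φ, hφ⟩ := main R S hR h hRS
    refine ⟨H, i1, i2, φ, fun hc => hφ ?_⟩
    exact ((φ.map_isConj huR).symm.trans hc).trans (φ.map_isConj hvS)
  · obtain ⟨H, i1, i2, φ, hφ⟩ := main S R hS h (fun hc => hRS hc.symm)
    refine ⟨H, i1, i2, φ, fun hc => hφ ?_⟩
    exact ((φ.map_isConj hvS).symm.trans hc.symm).trans (φ.map_isConj huR)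

/-- Simultaneous separation of finitely many pairs. -/
theorem conj_separable_finset (D : Finset (FreeGroup α × FreeGroup α)) :
    ∃ (H : Type) (_ : Group H) (_ : Finite H) (φ : FreeGroup α →* H),
      ∀ d ∈ D, IsConj (φ d.1) (φ d.2) → IsConj d.1 d.2 := by
  classical
  induction D using Finset.induction_on with
  | empty => exact ⟨Unit, inferInstance, inferInstance, 1, by simp⟩
  | insert d D hd ih =>
    obtain ⟨H, i1, i2, φ, hφ⟩ := ih
    by_cases hc : IsConj d.1 d.2
    · refine ⟨H, i1, i2, φ, fun e he hce => ?_⟩
      rcases Finset.mem_insert.1 he with h | h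
      · rw [h]; exact hc
      · exact hφ e h hce
    · obtain ⟨K, j1, j2, ψ, hψ⟩ := conj_separable d.1 d.2 hc
      refine ⟨H × K, inferInstance, inferInstance, φ.prod ψ, fun e he hce => ?_⟩
      rcases Finset.mem_insert.1 he with h | h
      · rw [h] at hce
        exact absurd ((MonoidHom.snd H K).map_isConj hce) hψ
      · exact hφ e h ((MonoidHom.fst H K).map_isConj hce)

end separation

end Pool.Agent.EX61
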