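import Mathlib

/-!
Definitions for the exactness question about the metric induced on a finite group by a
bi-invariant metric on a free group.
-/

namespace Pool.Agent.EX61

/-- `ρ` is a bi-invariant metric on the group `G`. -/
structure BiInvMetric {G : Type*} [Group G] (ρ : G → G → ℝ) : Prop where
  eq_zero_iff : ∀ g h : G, ρ g h = 0 ↔ g = h
  symm : ∀ g h : G, ρ g h = ρ h g
  triangle : ∀ g h l : G, ρ g l ≤ ρ g h + ρ h l
  left_inv : ∀ x g h : G, ρ (x * g) (x * h) = ρ g h
  right_inv : ∀ x g h : G, ρ (g * x) (h * x) = ρ g h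

/-- The restriction of `ν` to the finite set `A` is a partial monomorphism into `F`. -/
structure PartialMono {G F : Type*} [Group G] [Group F] (A : Finset G) (ν : G → F) : Prop where
  inj : Set.InjOn ν (A : Set G)
  mul : ∀ a ∈ A, ∀ b ∈ A, a * b ∈ A → ν (a * b) = ν a * ν b

/-- The set of all costs `∑ ρ(a_i, b_i)` of pairs of words of the same length `m ≥ 1` in `A`
whose images under `ν` multiply to `x` and to `y`. -/
def Costs {G F : Type*} [Group G] [Group F] (ρ : G → G → ℝ) (A : Finset G) (ν : G → F)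
    (x y : F) : Set ℝ :=
  {c | ∃ l : List (G × G), l ≠ [] ∧ (∀ p ∈ l, p.1 ∈ A ∧ p.2 ∈ A) ∧
    (l.map fun p => ν p.1).prod = x ∧ (l.map fun p => ν p.2).prod = y ∧
    (l.map fun p => ρ p.1 p.2).sum = c}

/-- Q1 holds for `(ρ, A)` with a finite abelian group: there are a finite abelian group `F` and a
partial monomorphism `ν : A → F` whose image generates `F` such that the minimal cost
`d_F(ν a, ν b)` is `ρ(a, b)` for all `a, b` in `A`. -/
def ExactAbelian {G : Type} [Group G] (ρ : G → G → ℝ) (A : Finset G) : Prop :=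
  ∃ (F : Type) (_ : Group F) (_ : Finite F) (ν : G → F),
    PartialMono A ν ∧ Subgroup.closure (ν '' (A : Set G)) = ⊤ ∧ (∀ x y : F, x * y = y * x) ∧
    ∀ a ∈ A, ∀ b ∈ A, IsLeast (Costs ρ A ν (ν a) (ν b)) (ρ a b)

end Pool.Agent.EX61
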