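import Pool.Agent.EX61.Defs

/-!
The exactness statement of the question for a finite set `A` and a metric `ρ`.
-/

namespace Pool.Agent.EX61

/-- The conclusion of Q1 for `(ρ, A)`: there are a finite group `F` and a partial monomorphism
`ν : A → F` whose image generates `F` such that the minimal cost `d_F(ν a, ν b)` is `ρ(a, b)` for
all `a, b` in `A`. -/
def Exact {G : Type} [Group G] (ρ : G → G → ℝ) (A : Finset G) : Prop :=
  ∃ (F : Type) (_ : Group F) (_ : Finite F) (ν : G → F),
    PartialMono A ν ∧ Subgroup.closure (ν '' (A : Set G)) = ⊤ ∧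
    ∀ a ∈ A, ∀ b ∈ A, IsLeast (Costs ρ A ν (ν a) (ν b)) (ρ a b)

end Pool.Agent.EX61
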