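import Pool.Agent.EX61.Defs

/-!
Exactness for finite subsets of a torsion-free group whose product relations are trivial or lie in
at most three cyclic subgroups.
-/

set_option linter.unusedSectionVars false

namespace Pool.Agent.EX61

section metric

variable {G : Type*} [Group G] {ρ : G → G → ℝ}

lemma BiInvMetric.self (h : BiInvMetric ρ) (g : G) : ρ g g = 0 := (h.eq_zero_iff g g).2 rfl

lemma BiInvMetric.nonneg (h : BiInvMetric ρ) (g k : G) : 0 ≤ ρ g k := by
  have h1 := h.triangle g k g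
  rw [h.self, h.symm k g] at h1
  linarith

lemma BiInvMetric.pos (h : BiInvMetric ρ) {g k : G} (hgk : g ≠ k) : 0 < ρ g k :=
  lt_of_le_of_ne (h.nonneg g k) (fun h0 => hgk ((h.eq_zero_iff g k).1 h0.symm))

lemma BiInvMetric.inv (h : BiInvMetric ρ) (g k : G) : ρ g⁻¹ k⁻¹ = ρ g k := by
  have h1 := h.left_inv g g⁻¹ k⁻¹
  have h2 := h.right_inv k (g * g⁻¹) (g * k⁻¹)
  rw [← h1, ← h2, h.symm]
  simp

lemma BiInvMetric.mul_one_le (h : BiInvMetric ρ) (x y : G) : ρ (x * y) 1 ≤ ρ x 1 + ρ y 1 := by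
  have h1 := h.triangle (x * y) y 1
  have h2 := h.right_inv y x 1
  rw [one_mul] at h2
  rw [h2] at h1
  exact h1

lemma BiInvMetric.mul_comm_one (h : BiInvMetric ρ) (x y : G) : ρ (x * y) 1 = ρ (y * x) 1 := by
  have h1 := h.left_inv x⁻¹ (x * y) 1
  have h2 := h.right_inv x (x⁻¹ * (x * y)) (x⁻¹ * 1)
  rw [← h1, ← h2]
  simp

lemma BiInvMetric.mul_inv_one (h : BiInvMetric ρ) (x y : G) : ρ (x * y⁻¹) 1 = ρ x y := by
  have h1 := h.right_inv y (x * y⁻¹) 1
  rw [← h1]
  simp

lemma BiInvMetric.inv_mul_one (h : BiInvMetric ρ) (x y : G) : ρ (y⁻¹ * x) 1 = ρ x y := by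
  rw [h.mul_comm_one, h.mul_inv_one]

end metric

section exponents

variable {G : Type*} [Group G] [IsMulTorsionFree G]

open Classical in
/-- exponent of `x` as a power of `u` (0 if there is none or if `u = 1`) -/
noncomputable def ex (u x : G) : ℤ :=
  if h : u ≠ 1 ∧ ∃ n : ℤ, u ^ n = x then h.2.choose else 0

lemma zpow_inj' {u : G} (hu : u ≠ 1) {m n : ℤ} (h : u ^ m = u ^ n) : m = n := by
  have h1 : u ^ (m - n) = 1 := by rw [zpow_sub, h, mul_inv_cancel]
  have h2 := (IsMulTorsionFree.zpow_eq_one_iff_right hu).1 h1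
  omega

lemma ex_zpow {u : G} (hu : u ≠ 1) (n : ℤ) : ex u (u ^ n) = n := by
  have h : u ≠ 1 ∧ ∃ m : ℤ, u ^ m = u ^ n := ⟨hu, n, rfl⟩
  unfold ex
  rw [dif_pos h]
  exact zpow_inj' hu h.2.choose_spec

lemma ex_of_not_mem {u x : G} (hx : x ∉ Subgroup.zpowers u) : ex u x = 0 := by
  unfold ex
  rw [dif_neg]
  rintro ⟨_, n, hn⟩
  exact hx (Subgroup.mem_zpowers_iff.2 ⟨n, hn⟩)

lemma ex_of_eq_one {u : G} (hu : u = 1) (x : G) : ex u x = 0 := by
  unfold ex
  rw [dif_neg]
  rintro ⟨h, _⟩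
  exact h hu

lemma ex_spec {u x : G} (hx : x ∈ Subgroup.zpowers u) : u ^ ex u x = x := by
  obtain ⟨n, rfl⟩ := Subgroup.mem_zpowers_iff.1 hx
  by_cases hu : u = 1
  · rw [ex_of_eq_one hu, hu]; simp
  · rw [ex_zpow hu]

lemma ex_one (u : G) : ex u 1 = 0 := by
  by_cases hu : u = 1
  · exact ex_of_eq_one hu 1
  · have := ex_zpow hu 0
    simpa using this

lemma ex_mul {u x y : G} (hx : x ∈ Subgroup.zpowers u) (hy : y ∈ Subgroup.zpowers u) :
    ex u (x * y) = ex u x + ex u y := by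
  by_cases hu : u = 1
  · simp [ex_of_eq_one hu]
  · obtain ⟨n, rfl⟩ := Subgroup.mem_zpowers_iff.1 hx
    obtain ⟨m, rfl⟩ := Subgroup.mem_zpowers_iff.1 hy
    rw [← zpow_add, ex_zpow hu, ex_zpow hu, ex_zpow hu]

lemma ex_inv (u x : G) : ex u x⁻¹ = - ex u x := by
  by_cases hx : x ∈ Subgroup.zpowers u
  · have h1 := ex_mul hx (inv_mem hx)
    rw [mul_inv_cancel, ex_one] at h1
    linarith
  · rw [ex_of_not_mem hx, ex_of_not_mem (fun h => hx (by simpa using inv_mem h))]
    simp

end exponents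

section coordinates

variable {G : Type*} [Group G] [IsMulTorsionFree G] (w : Fin 3 → G)

/-- union of the three cyclic subgroups -/
def TT : Set G := {x | ∃ i, x ∈ Subgroup.zpowers (w i)}

lemma one_mem_TT : (1 : G) ∈ TT w := ⟨0, one_mem _⟩

lemma inv_mem_TT {x : G} (hx : x ∈ TT w) : x⁻¹ ∈ TT w := by
  obtain ⟨i, hi⟩ := hx
  exact ⟨i, inv_mem hi⟩

lemma inv_mem_TT_iff {x : G} : x⁻¹ ∈ TT w ↔ x ∈ TT w :=
  ⟨fun h => by simpa using inv_mem_TT w h, inv_mem_TT w⟩

open Classical in
/-- the signed indicator -/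
noncomputable def chi (c x : G) : ℤ := (if x = c then 1 else 0) - (if x = c⁻¹ then 1 else 0)

open Classical in
/-- the coordinates -/
noncomputable def X (x : G) : Fin 3 ⊕ G → ℤ
  | Sum.inl i => ex (w i) x
  | Sum.inr c => if x ∈ TT w then 0 else chi c x

lemma X_inl (x : G) (i : Fin 3) : X w x (Sum.inl i) = ex (w i) x := rfl

lemma X_inr_mem {x : G} (hx : x ∈ TT w) (c : G) : X w x (Sum.inr c) = 0 := by
  simp [X, hx]

lemma X_inr_not_mem {x : G} (hx : x ∉ TT w) (c : G) : X w x (Sum.inr c) = chi c x := by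
  simp [X, hx]

lemma chi_inv (c x : G) : chi c x⁻¹ = - chi c x := by
  have h1 : x⁻¹ = c ↔ x = c⁻¹ := inv_eq_iff_eq_inv
  have h2 : x⁻¹ = c⁻¹ ↔ x = c := inv_inj
  unfold chi
  by_cases hc : x = c
  · by_cases hd : x = c⁻¹
    · rw [if_pos (h1.2 hd), if_pos (h2.2 hc), if_pos hc, if_pos hd]; ring
    · rw [if_neg (fun h => hd (h1.1 h)), if_pos (h2.2 hc), if_pos hc, if_neg hd]; ring
  · by_cases hd : x = c⁻¹
    · rw [if_pos (h1.2 hd), if_neg (fun h => hc (h2.1 h)), if_neg hc, if_pos hd]; ring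
    · rw [if_neg (fun h => hd (h1.1 h)), if_neg (fun h => hc (h2.1 h)), if_neg hc, if_neg hd]; ring

lemma chi_inv_left (c x : G) : chi c⁻¹ x = - chi c x := by
  unfold chi
  rw [inv_inv]
  ring

lemma X_inv (x : G) (j : Fin 3 ⊕ G) : X w x⁻¹ j = - X w x j := by
  rcases j with i | c
  · exact ex_inv _ _
  · by_cases hx : x ∈ TT w
    · rw [X_inr_mem w hx, X_inr_mem w (inv_mem_TT w hx)]; simp
    · rw [X_inr_not_mem w hx, X_inr_not_mem w (fun h => hx ((inv_mem_TT_iff w).1 h)), chi_inv]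

lemma X_one (j : Fin 3 ⊕ G) : X w 1 j = 0 := by
  have h := X_inv w 1 j
  rw [inv_one] at h
  linarith

lemma ne_inv_of_ne_one {x : G} (hx : x ≠ 1) : x ≠ x⁻¹ := by
  intro h
  have h2 : x ^ (2 : ℤ) = 1 := by
    rw [zpow_two]
    nth_rewrite 2 [h]
    exact mul_inv_cancel x
  have h3 := (IsMulTorsionFree.zpow_eq_one_iff_right hx).1 h2
  norm_num at h3

lemma chi_self {x : G} (hx : x ≠ 1) : chi x x = 1 := by
  unfold chi
  rw [if_pos rfl, if_neg (ne_inv_of_ne_one hx)]
  norm_num

lemma eq_of_chi_pos {c x : G} (h : 0 < chi c x) : x = c := by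
  by_contra hne
  unfold chi at h
  rw [if_neg hne] at h
  split_ifs at h <;> omega

lemma eq_inv_of_chi_neg {c x : G} (h : chi c x < 0) : x = c⁻¹ := by
  by_contra hne
  unfold chi at h
  rw [if_neg hne] at h
  split_ifs at h <;> omega

lemma eq_of_X_pos {c x : G} (h : 0 < X w x (Sum.inr c)) : x = c := by
  by_cases hx : x ∈ TT w
  · rw [X_inr_mem w hx] at h; omega
  · rw [X_inr_not_mem w hx] at h; exact eq_of_chi_pos h

lemma eq_inv_of_X_neg {c x : G} (h : X w x (Sum.inr c) < 0) : x = c⁻¹ := by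
  by_cases hx : x ∈ TT w
  · rw [X_inr_mem w hx] at h; omega
  · rw [X_inr_not_mem w hx] at h; exact eq_inv_of_chi_neg h

lemma ne_one_of_not_mem {x : G} (hx : x ∉ TT w) : x ≠ 1 := by
  rintro rfl
  exact hx (one_mem_TT w)

lemma X_self {x : G} (hx : x ∉ TT w) : X w x (Sum.inr x) = 1 := by
  rw [X_inr_not_mem w hx, chi_self (ne_one_of_not_mem w hx)]

/-- if `x ∉ T` and `y ≠ x` then the `x`-coordinate of `y` is at most 0 -/
lemma X_nonpos {x y : G} (hxy : y ≠ x) : X w y (Sum.inr x) ≤ 0 := by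
  by_contra h
  exact hxy (eq_of_X_pos w (not_le.1 h))

variable (hw : ∀ i j, i ≠ j → Subgroup.zpowers (w i) ⊓ Subgroup.zpowers (w j) = ⊥)

include hw in
lemma ex_other {i l : Fin 3} (hil : l ≠ i) {x : G} (hx : x ∈ Subgroup.zpowers (w i)) :
    ex (w l) x = 0 := by
  by_cases hxl : x ∈ Subgroup.zpowers (w l)
  · have h1 : x ∈ Subgroup.zpowers (w l) ⊓ Subgroup.zpowers (w i) := ⟨hxl, hx⟩
    rw [hw l i hil, Subgroup.mem_bot] at h1
    rw [h1, ex_one]
  · exact ex_of_not_mem hxl

/-- the product of powers -/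
noncomputable def pr (v : Fin 3 → ℤ) : G := w 0 ^ v 0 * w 1 ^ v 1 * w 2 ^ v 2

include hw in
lemma pr_ex {x : G} (hx : x ∈ TT w) : pr w (fun i => ex (w i) x) = x := by
  obtain ⟨i, hi⟩ := hx
  have h0 := ex_spec hi
  have hpo : ∀ l, l ≠ i → ex (w l) x = 0 := fun l hl => ex_other w hw hl hi
  unfold pr
  fin_cases i
  · simp only [hpo 1 (by decide), hpo 2 (by decide)]
    simpa using h0
  · simp only [hpo 0 (by decide), hpo 2 (by decide)]
    simpa using h0
  · simp only [hpo 0 (by decide), hpo 1 (by decide)]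
    simpa using h0

variable {ρ : G → G → ℝ} (hρ : BiInvMetric ρ)

include hρ in
lemma pr_add_le (v u : Fin 3 → ℤ) (hu : u 0 = 0 ∨ u 1 = 0 ∨ u 2 = 0) :
    ρ (pr w (v + u)) 1 ≤ ρ (pr w v) 1 + ρ (pr w u) 1 := by
  unfold pr
  simp only [Pi.add_apply]
  rcases hu with hu | hu | hu
  · -- v0 v1 (u1 u2) v2
    rw [hu]
    have e1 : w 0 ^ (v 0 + 0) * w 1 ^ (v 1 + u 1) * w 2 ^ (v 2 + u 2)
        = (w 0 ^ v 0 * w 1 ^ v 1) * (w 1 ^ u 1 * w 2 ^ u 2 * w 2 ^ v 2) := by
      rw [add_zero, zpow_add, add_comm (v 2), zpow_add]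
      group
    rw [e1, hρ.mul_comm_one]
    have e2 : w 1 ^ u 1 * w 2 ^ u 2 * w 2 ^ v 2 * (w 0 ^ v 0 * w 1 ^ v 1)
        = (w 1 ^ u 1 * w 2 ^ u 2) * (w 2 ^ v 2 * (w 0 ^ v 0 * w 1 ^ v 1)) := by
      simp only [mul_assoc]
    rw [e2]
    refine (hρ.mul_one_le _ _).trans ?_
    rw [hρ.mul_comm_one (w 2 ^ v 2), zpow_zero, one_mul]
    linarith
  · rw [hu]
    have e1 : w 0 ^ (v 0 + u 0) * w 1 ^ (v 1 + 0) * w 2 ^ (v 2 + u 2)
        = w 0 ^ u 0 * ((w 0 ^ v 0 * w 1 ^ v 1 * w 2 ^ v 2) * w 2 ^ u 2) := by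
      rw [add_zero, add_comm (v 0), zpow_add, zpow_add]
      simp only [mul_assoc]
    rw [e1, hρ.mul_comm_one, mul_assoc]
    refine (hρ.mul_one_le _ _).trans ?_
    rw [hρ.mul_comm_one (w 2 ^ u 2), zpow_zero, mul_one]
  · rw [hu]
    have e1 : w 0 ^ (v 0 + u 0) * w 1 ^ (v 1 + u 1) * w 2 ^ (v 2 + 0)
        = w 0 ^ v 0 * ((w 0 ^ u 0 * w 1 ^ u 1) * (w 1 ^ v 1 * w 2 ^ v 2)) := by
      rw [add_zero, zpow_add, add_comm (v 1), zpow_add]
      simp only [mul_assoc]
    rw [e1, hρ.mul_comm_one]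
    have e2 : (w 0 ^ u 0 * w 1 ^ u 1) * (w 1 ^ v 1 * w 2 ^ v 2) * w 0 ^ v 0
        = (w 0 ^ u 0 * w 1 ^ u 1) * ((w 1 ^ v 1 * w 2 ^ v 2) * w 0 ^ v 0) := by
      simp only [mul_assoc]
    rw [e2]
    refine (hρ.mul_one_le _ _).trans ?_
    rw [hρ.mul_comm_one (w 1 ^ v 1 * w 2 ^ v 2), zpow_zero, mul_one, mul_assoc (w 0 ^ v 0)]
    linarith

include hw hρ in
lemma pair_TT {p q : G} (hp : p ∈ TT w) (hq : q ∈ TT w) :
    ((ex (w 0) p - ex (w 0) q = 0) ∨ (ex (w 1) p - ex (w 1) q = 0) ∨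
      (ex (w 2) p - ex (w 2) q = 0)) ∧
    ρ (pr w (fun i => ex (w i) p - ex (w i) q)) 1 = ρ p q := by
  obtain ⟨i, hi⟩ := hp
  obtain ⟨j, hj⟩ := hq
  have hp0 := ex_spec hi
  have hq0 := ex_spec hj
  have hpo : ∀ l, l ≠ i → ex (w l) p = 0 := fun l hl => ex_other w hw hl hi
  have hqo : ∀ l, l ≠ j → ex (w l) q = 0 := fun l hl => ex_other w hw hl hj
  constructor
  · by_cases h0 : (0 : Fin 3) ≠ i ∧ (0 : Fin 3) ≠ j
    · left; rw [hpo 0 h0.1, hqo 0 h0.2]; simp
    by_cases h1 : (1 : Fin 3) ≠ i ∧ (1 : Fin 3) ≠ j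
    · right; left; rw [hpo 1 h1.1, hqo 1 h1.2]; simp
    · right; right
      have h2 : (2 : Fin 3) ≠ i ∧ (2 : Fin 3) ≠ j := by
        clear hpo hqo hp0 hq0 hi hj
        revert h0 h1
        revert i j
        decide
      rw [hpo 2 h2.1, hqo 2 h2.2]; simp
  · unfold pr
    rcases eq_or_ne i j with hij | hij
    · subst hij
      have key : ρ (w i ^ (ex (w i) p - ex (w i) q)) 1 = ρ p q := by
        rw [zpow_sub, hp0, hq0, hρ.mul_inv_one]
      rw [← key]
      fin_cases i
      · simp only [hpo 1 (by decide), hpo 2 (by decide), hqo 1 (by decide), hqo 2 (by decide)]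
        simp
      · simp only [hpo 0 (by decide), hpo 2 (by decide), hqo 0 (by decide), hqo 2 (by decide)]
        simp
      · simp only [hpo 0 (by decide), hpo 1 (by decide), hqo 0 (by decide), hqo 1 (by decide)]
        simp
    · have k1 : ρ (w i ^ (ex (w i) p) * w j ^ (0 - ex (w j) q)) 1 = ρ p q := by
        rw [zero_sub, zpow_neg, hp0, hq0, hρ.mul_inv_one]
      have k2 : ρ (w j ^ (0 - ex (w j) q) * w i ^ (ex (w i) p)) 1 = ρ p q := by
        rw [hρ.mul_comm_one, k1]
      fin_cases i <;> fin_cases j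
      · exact absurd rfl hij
      · rw [← k1]
        simp only [hpo 1 (by decide), hpo 2 (by decide), hqo 0 (by decide), hqo 2 (by decide)]
        simp
      · rw [← k1]
        simp only [hpo 1 (by decide), hpo 2 (by decide), hqo 0 (by decide), hqo 1 (by decide)]
        simp
      · rw [← k2]
        simp only [hpo 0 (by decide), hpo 2 (by decide), hqo 1 (by decide), hqo 2 (by decide)]
        simp
      · exact absurd rfl hij
      · rw [← k1]
        simp only [hpo 0 (by decide), hpo 2 (by decide), hqo 0 (by decide), hqo 1 (by decide)]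
        simp
      · rw [← k2]
        simp only [hpo 0 (by decide), hpo 1 (by decide), hqo 1 (by decide), hqo 2 (by decide)]
        simp
      · rw [← k2]
        simp only [hpo 0 (by decide), hpo 1 (by decide), hqo 0 (by decide), hqo 2 (by decide)]
        simp
      · exact absurd rfl hij

/-- total vector -/
noncomputable def V (M : Multiset (G × G)) (j : Fin 3 ⊕ G) : ℤ :=
  (M.map fun p => X w p.1 j - X w p.2 j).sum

/-- total cost -/
noncomputable def C (ρ : G → G → ℝ) (M : Multiset (G × G)) : ℝ := (M.map fun p => ρ p.1 p.2).sum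

lemma V_cons (p : G × G) (M : Multiset (G × G)) (j : Fin 3 ⊕ G) :
    V w (p ::ₘ M) j = (X w p.1 j - X w p.2 j) + V w M j := by simp [V]

lemma C_cons (p : G × G) (M : Multiset (G × G)) : C ρ (p ::ₘ M) = ρ p.1 p.2 + C ρ M := by
  simp [C]

include hρ in
lemma C_nonneg (M : Multiset (G × G)) : 0 ≤ C ρ M := by
  induction M using Multiset.induction_on with
  | empty => simp [C]
  | cons p M ih => rw [C_cons]; have := hρ.nonneg p.1 p.2; linarith

lemma exists_pos (M : Multiset (G × G)) (j : Fin 3 ⊕ G) (h : 0 < V w M j) :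
    ∃ p ∈ M, 0 < X w p.1 j - X w p.2 j := by
  induction M using Multiset.induction_on with
  | empty => simp [V] at h
  | cons p M ih =>
    rw [V_cons] at h
    by_cases hp : 0 < X w p.1 j - X w p.2 j
    · exact ⟨p, Multiset.mem_cons_self _ _, hp⟩
    · obtain ⟨q, hq, hq2⟩ := ih (by omega)
      exact ⟨q, Multiset.mem_cons_of_mem hq, hq2⟩

lemma exists_neg (M : Multiset (G × G)) (j : Fin 3 ⊕ G) (h : V w M j < 0) :
    ∃ p ∈ M, X w p.1 j - X w p.2 j < 0 := by
  induction M using Multiset.induction_on with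
  | empty => simp [V] at h
  | cons p M ih =>
    rw [V_cons] at h
    by_cases hp : X w p.1 j - X w p.2 j < 0
    · exact ⟨p, Multiset.mem_cons_self _ _, hp⟩
    · obtain ⟨q, hq, hq2⟩ := ih (by omega)
      exact ⟨q, Multiset.mem_cons_of_mem hq, hq2⟩

include hw hρ in
/-- all nodes in the three cyclic subgroups -/
lemma core_TT (M : Multiset (G × G)) (hM : ∀ p ∈ M, p.1 ∈ TT w ∧ p.2 ∈ TT w) :
    ρ (pr w (fun i => V w M (Sum.inl i))) 1 ≤ C ρ M := by
  induction M using Multiset.induction_on with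
  | empty =>
    have : pr w (fun i => V w (0 : Multiset (G × G)) (Sum.inl i)) = 1 := by simp [V, pr]
    rw [this, hρ.self]; simp [C]
  | cons p M ih =>
    have hp := hM p (Multiset.mem_cons_self _ _)
    have ih' := ih (fun q hq => hM q (Multiset.mem_cons_of_mem hq))
    have h1 := pair_TT w hw hρ hp.1 hp.2
    have h2 := pr_add_le w hρ (fun i => V w M (Sum.inl i))
      (fun i => ex (w i) p.1 - ex (w i) p.2) h1.1
    rw [h1.2] at h2
    have h3 : (fun i => V w (p ::ₘ M) (Sum.inl i)) =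
        (fun i => V w M (Sum.inl i)) + (fun i => ex (w i) p.1 - ex (w i) p.2) := by
      funext i
      simp only [V_cons, X_inl, Pi.add_apply]
      ring
    rw [h3, C_cons]
    linarith

include hw hρ in
theorem core (n : ℕ) : ∀ (M : Multiset (G × G)), Multiset.card M = n → ∀ a b : G,
    (∀ j, V w M j = X w a j - X w b j) → ρ a b ≤ C ρ M := by
  induction n using Nat.strong_induction_on with
  | _ n ih =>
  intro M hMn a b hV
  -- the case where the first end is not in T
  have case1 : ∀ a b : G, (∀ j, V w M j = X w a j - X w b j) → a ∉ TT w → a ≠ b →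
      ρ a b ≤ C ρ M := by
    intro a b hV ha hab
    have h1 : 0 < V w M (Sum.inr a) := by
      rw [hV, X_self w ha]
      have := X_nonpos w (x := a) (y := b) (Ne.symm hab)
      omega
    obtain ⟨p, hp, hpos⟩ := exists_pos w M _ h1
    obtain ⟨M', rfl⟩ := Multiset.exists_cons_of_mem hp
    have hcard : Multiset.card M' < n := by rw [← hMn, Multiset.card_cons]; omega
    rw [C_cons]
    by_cases hpa : 0 < X w p.1 (Sum.inr a)
    · have hpa' := eq_of_X_pos w hpa
      have h2 := ih _ hcard M' rfl p.2 b (fun j => by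
        have := hV j
        rw [V_cons, hpa'] at this
        omega)
      have h3 := hρ.triangle a p.2 b
      rw [hpa']
      linarith
    · have hpb : X w p.2 (Sum.inr a) < 0 := by omega
      have hpb' := eq_inv_of_X_neg w hpb
      have h2 := ih _ hcard M' rfl p.1⁻¹ b (fun j => by
        have := hV j
        rw [V_cons, hpb', X_inv w a j] at this
        rw [X_inv w p.1 j]
        omega)
      have h3 := hρ.triangle a p.1⁻¹ b
      have h4 : ρ a p.1⁻¹ = ρ p.1 p.2 := by
        rw [hpb', ← hρ.inv a p.1⁻¹, inv_inv, hρ.symm]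
      rw [h4] at h3
      linarith
  by_cases hab : a = b
  · rw [hab, hρ.self]; exact C_nonneg hρ M
  by_cases ha : a ∈ TT w
  swap
  · exact case1 a b hV ha hab
  by_cases hb : b ∈ TT w
  swap
  · have h1 := case1 b⁻¹ a⁻¹ (fun j => by rw [hV, X_inv, X_inv]; ring)
      (fun h => hb ((inv_mem_TT_iff w).1 h)) (fun h => hab (inv_injective h).symm)
    rw [hρ.inv, hρ.symm] at h1
    exact h1
  by_cases hall : ∀ p ∈ M, p.1 ∈ TT w ∧ p.2 ∈ TT w
  · have h1 := core_TT w hw hρ M hall
    have h2 : (fun i => V w M (Sum.inl i)) = fun i => ex (w i) a - ex (w i) b := by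
      funext i
      rw [hV]
      rfl
    rw [h2, (pair_TT w hw hρ ha hb).2] at h1
    exact h1
  · push Not at hall
    obtain ⟨p, hp, hp2⟩ := hall
    obtain ⟨M', rfl⟩ := Multiset.exists_cons_of_mem hp
    have hcard : Multiset.card M' < n := by rw [← hMn, Multiset.card_cons]; omega
    by_cases hpq : p.1 = p.2
    · have h2 := ih _ hcard M' rfl a b (fun j => by
        have := hV j
        rw [V_cons, hpq] at this
        omega)
      rw [C_cons]
      have := hρ.nonneg p.1 p.2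
      linarith
    -- orient the pair
    obtain ⟨s, t, hs, hst, hX, hc⟩ : ∃ s t : G, s ∉ TT w ∧ s ≠ t ∧
        (∀ j, X w p.1 j - X w p.2 j = X w s j - X w t j) ∧ ρ p.1 p.2 = ρ s t := by
      by_cases h1 : p.1 ∈ TT w
      · refine ⟨p.2⁻¹, p.1⁻¹, fun h => hp2 h1 ((inv_mem_TT_iff w).1 h),
          fun h => hpq (inv_injective h).symm, fun j => ?_, ?_⟩
        · rw [X_inv, X_inv]; ring
        · rw [hρ.inv, hρ.symm]
      · exact ⟨p.1, p.2, h1, hpq, fun j => rfl, rfl⟩
    have hneg : V w M' (Sum.inr s) < 0 := by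
      have h1 := hV (Sum.inr s)
      rw [V_cons, hX, X_self w hs, X_inr_mem w ha, X_inr_mem w hb] at h1
      have := X_nonpos w (x := s) (y := t) (Ne.symm hst)
      omega
    obtain ⟨p', hp', hneg'⟩ := exists_neg w M' _ hneg
    obtain ⟨M'', rfl⟩ := Multiset.exists_cons_of_mem hp'
    obtain ⟨s', hX', hc'⟩ : ∃ s' : G,
        (∀ j, X w p'.1 j - X w p'.2 j = X w s' j - X w s j) ∧ ρ p'.1 p'.2 = ρ s' s := by
      by_cases h1 : 0 < X w p'.2 (Sum.inr s)
      · have h2 := eq_of_X_pos w h1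
        exact ⟨p'.1, fun j => by rw [h2], by rw [h2]⟩
      · have h3 : X w p'.1 (Sum.inr s) < 0 := by omega
        have h4 := eq_inv_of_X_neg w h3
        refine ⟨p'.2⁻¹, fun j => ?_, ?_⟩
        · rw [h4, X_inv, X_inv]; ring
        · rw [h4, ← hρ.inv p'.2⁻¹ s, inv_inv, hρ.symm]
    have hcard2 : Multiset.card ((s', t) ::ₘ M'') < n := by
      rw [← hMn]
      simp only [Multiset.card_cons]
      omega
    have h5 := ih _ hcard2 ((s', t) ::ₘ M'') rfl a b (fun j => by
      have h6 := hV j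
      rw [V_cons, V_cons, hX, hX'] at h6
      rw [V_cons]
      simp only
      omega)
    rw [C_cons] at h5
    rw [C_cons, C_cons, hc, hc']
    have h7 := hρ.triangle s' s t
    simp only at h5
    linarith

end coordinates

section reduction

/-- From integral coordinates to a finite abelian group. -/
theorem exact_of_coordinates {G : Type} [Group G] {ρ : G → G → ℝ} (hρ : BiInvMetric ρ)
    (A : Finset G) {ι : Type} [Finite ι] (Y : G → ι → ℤ)
    (hinj : ∀ a ∈ A, ∀ b ∈ A, Y a = Y b → a = b)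
    (hmul : ∀ a ∈ A, ∀ b ∈ A, a * b ∈ A → Y (a * b) = Y a + Y b)
    (hcore : ∀ l : List (G × G), (∀ p ∈ l, p.1 ∈ A ∧ p.2 ∈ A) → ∀ a ∈ A, ∀ b ∈ A,
      (∀ j, (l.map fun p => Y p.1 j - Y p.2 j).sum = Y a j - Y b j) →
      ρ a b ≤ (l.map fun p => ρ p.1 p.2).sum) :
    ExactAbelian ρ A := by
  classical
  have := Fintype.ofFinite ι
  -- bounds
  obtain ⟨B, hB⟩ : ∃ B : ℕ, ∀ x ∈ A, ∀ y ∈ A, ∀ j, |Y x j - Y y j| ≤ (B : ℤ) := by
    refine ⟨∑ x ∈ A, ∑ y ∈ A, ∑ j, (Y x j - Y y j).natAbs, fun x hx y hy j => ?_⟩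
    have h1 : (Y x j - Y y j).natAbs ≤ ∑ j, (Y x j - Y y j).natAbs :=
      Finset.single_le_sum (f := fun j => (Y x j - Y y j).natAbs) (fun _ _ => Nat.zero_le _)
        (Finset.mem_univ j)
    have h2 : ∑ j, (Y x j - Y y j).natAbs ≤ ∑ y ∈ A, ∑ j, (Y x j - Y y j).natAbs :=
      Finset.single_le_sum (f := fun y => ∑ j, (Y x j - Y y j).natAbs)
        (fun _ _ => Nat.zero_le _) hy
    have h3 : ∑ y ∈ A, ∑ j, (Y x j - Y y j).natAbs ≤
        ∑ x ∈ A, ∑ y ∈ A, ∑ j, (Y x j - Y y j).natAbs :=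
      Finset.single_le_sum (f := fun x => ∑ y ∈ A, ∑ j, (Y x j - Y y j).natAbs)
        (fun _ _ => Nat.zero_le _) hx
    have h4 := h1.trans (h2.trans h3)
    rw [Int.abs_eq_natAbs]
    exact_mod_cast h4
  obtain ⟨C, hC0, hC⟩ : ∃ C : ℝ, 0 ≤ C ∧ ∀ x ∈ A, ∀ y ∈ A, ρ x y ≤ C := by
    refine ⟨∑ x ∈ A, ∑ y ∈ A, ρ x y,
      Finset.sum_nonneg fun x _ => Finset.sum_nonneg fun y _ => hρ.nonneg x y,
      fun x hx y hy => ?_⟩
    have h1 : ρ x y ≤ ∑ y ∈ A, ρ x y :=
      Finset.single_le_sum (f := fun y => ρ x y) (fun z _ => hρ.nonneg x z) hy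
    have h2 : ∑ y ∈ A, ρ x y ≤ ∑ x ∈ A, ∑ y ∈ A, ρ x y :=
      Finset.single_le_sum (f := fun x => ∑ y ∈ A, ρ x y)
        (fun z _ => Finset.sum_nonneg fun y _ => hρ.nonneg z y) hx
    exact h1.trans h2
  -- K bounds coordinate differences by the cost
  obtain ⟨K, hK0, hK⟩ : ∃ K : ℝ, 0 ≤ K ∧ ∀ x ∈ A, ∀ y ∈ A, ∀ j,
      |((Y x j - Y y j : ℤ) : ℝ)| ≤ K * ρ x y := by
    refine ⟨∑ x ∈ A, ∑ y ∈ A, (B : ℝ) / ρ x y, Finset.sum_nonneg fun x _ =>
      Finset.sum_nonneg fun y _ => div_nonneg (Nat.cast_nonneg _) (hρ.nonneg x y),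
      fun x hx y hy j => ?_⟩
    by_cases hxy : x = y
    · subst hxy
      simp [hρ.self]
    · have hpos := hρ.pos hxy
      have h1 : (B : ℝ) / ρ x y ≤ ∑ y ∈ A, (B : ℝ) / ρ x y :=
        Finset.single_le_sum (f := fun y => (B : ℝ) / ρ x y)
          (fun z _ => div_nonneg (Nat.cast_nonneg _) (hρ.nonneg x z)) hy
      have h2 : ∑ y ∈ A, (B : ℝ) / ρ x y ≤ ∑ x ∈ A, ∑ y ∈ A, (B : ℝ) / ρ x y :=
        Finset.single_le_sum (f := fun x => ∑ y ∈ A, (B : ℝ) / ρ x y)
          (fun z _ => Finset.sum_nonneg fun y _ => div_nonneg (Nat.cast_nonneg _)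
            (hρ.nonneg z y)) hx
      have h3 := mul_le_mul_of_nonneg_right (h1.trans h2) hpos.le
      rw [div_mul_cancel₀ _ hpos.ne'] at h3
      refine le_trans ?_ h3
      rw [← Int.cast_abs]
      exact_mod_cast hB x hx y hy j
  obtain ⟨N, hN⟩ := exists_nat_gt (K * C + B)
  have hNpos : 0 < N := by
    have h0 : (0 : ℝ) < N := lt_of_le_of_lt (by positivity) hN
    exact_mod_cast h0
  have : NeZero N := ⟨hNpos.ne'⟩
  have hBN : (B : ℤ) < N := by
    have h0 : (B : ℝ) < N := lt_of_le_of_lt (by nlinarith [mul_nonneg hK0 hC0]) hN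
    exact_mod_cast h0
  let ν₀ : G → Multiplicative (ι → ZMod N) := fun x => Multiplicative.ofAdd fun j => (Y x j : ZMod N)
  let H : Subgroup (Multiplicative (ι → ZMod N)) := Subgroup.closure (ν₀ '' (A : Set G))
  let ν : G → H := fun x => if hx : x ∈ A then
    ⟨ν₀ x, Subgroup.subset_closure ⟨x, hx, rfl⟩⟩ else 1
  have hν : ∀ x ∈ A, ((ν x : H) : Multiplicative (ι → ZMod N)) = ν₀ x := by
    intro x hx
    simp only [ν, dif_pos hx]
  -- congruence of coordinates
  have hcong : ∀ x ∈ A, ∀ y ∈ A, ν₀ x = ν₀ y → x = y := by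
    intro x hx y hy hxy
    apply hinj x hx y hy
    funext j
    have h1 : (Y x j : ZMod N) = (Y y j : ZMod N) := congrFun (Multiplicative.ofAdd.injective hxy) j
    have h2 : (N : ℤ) ∣ Y x j - Y y j := by
      rw [← ZMod.intCast_zmod_eq_zero_iff_dvd]
      push_cast
      rw [h1, sub_self]
    have h3 := Int.eq_zero_of_abs_lt_dvd h2 (lt_of_le_of_lt (hB x hx y hy j) hBN)
    omega
  refine ⟨H, inferInstance, inferInstance, ν, ⟨?_, ?_⟩, ?_, ?_, ?_⟩
  · intro x hx y hy hxy
    apply hcong x hx y hy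
    rw [← hν x hx, ← hν y hy, hxy]
  · intro a ha b hb hab
    apply Subtype.ext
    rw [hν _ hab, Subgroup.coe_mul, hν a ha, hν b hb]
    simp only [ν₀]
    rw [← ofAdd_add]
    congr 1
    funext j
    rw [hmul a ha b hb hab]
    simp
  · have h1 : ν '' (A : Set G) = (Subtype.val : H → _) ⁻¹' (ν₀ '' (A : Set G)) := by
      ext z
      constructor
      · rintro ⟨x, hx, rfl⟩
        exact ⟨x, hx, (hν x hx).symm⟩
      · rintro ⟨x, hx, hz⟩
        exact ⟨x, hx, Subtype.ext (by rw [hν x hx, hz])⟩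
    rw [h1]
    exact Subgroup.closure_closure_coe_preimage
  · intro x y
    exact mul_comm x y
  · intro a ha b hb
    constructor
    · exact ⟨[(a, b)], by simp, by simp [ha, hb], by simp, by simp, by simp⟩
    · rintro c ⟨l, -, hl, hla, hlb, rfl⟩
      by_contra hlt
      rw [not_le] at hlt
      -- coordinates of products
      have hprod : ∀ (f : G × G → G) (l : List (G × G)), (∀ p ∈ l, f p ∈ A) → ∀ j,
          (Multiplicative.toAdd ((((l.map fun p => ν (f p)).prod : H)) :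
            Multiplicative (ι → ZMod N))) j = (((l.map fun p => Y (f p) j).sum : ℤ) : ZMod N) := by
        intro f l
        induction l with
        | nil => intro _ j; simp
        | cons p l ih =>
          intro h j
          have h1 := ih (fun q hq => h q (List.mem_cons_of_mem _ hq)) j
          rw [List.map_cons, List.prod_cons, Subgroup.coe_mul, toAdd_mul, Pi.add_apply, h1,
            List.map_cons, List.sum_cons, hν _ (h p List.mem_cons_self)]
          simp [ν₀]
      have hbound : ∀ (l : List (G × G)), (∀ p ∈ l, p.1 ∈ A ∧ p.2 ∈ A) → ∀ j,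
          |(((l.map fun p => Y p.1 j - Y p.2 j).sum : ℤ) : ℝ)| ≤
            K * (l.map fun p => ρ p.1 p.2).sum := by
        intro l
        induction l with
        | nil => intro _ j; simp
        | cons p l ih =>
          intro h j
          have h1 := ih (fun q hq => h q (List.mem_cons_of_mem _ hq)) j
          have h2 := h p List.mem_cons_self
          have h3 := hK p.1 h2.1 p.2 h2.2 j
          rw [List.map_cons, List.sum_cons, List.map_cons, List.sum_cons, Int.cast_add]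
          refine (abs_add_le _ _).trans ?_
          rw [mul_add]
          exact add_le_add h3 h1
      refine absurd (hcore l hl a ha b hb fun j => ?_) (not_le.2 hlt)
      have e1 := hprod Prod.fst l (fun p hp => (hl p hp).1) j
      have e2 := hprod Prod.snd l (fun p hp => (hl p hp).2) j
      rw [hla, hν a ha] at e1
      rw [hlb, hν b hb] at e2
      have e1' : ((Y a j : ℤ) : ZMod N) = (((l.map fun p => Y p.1 j).sum : ℤ) : ZMod N) := e1
      have e2' : ((Y b j : ℤ) : ZMod N) = (((l.map fun p => Y p.2 j).sum : ℤ) : ZMod N) := e2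
      have hsub : (l.map fun p => Y p.1 j - Y p.2 j).sum =
          (l.map fun p => Y p.1 j).sum - (l.map fun p => Y p.2 j).sum := by
        clear e1 e2 e1' e2' hla hlb hlt hl
        induction l with
        | nil => simp
        | cons p l ih => simp only [List.map_cons, List.sum_cons, ih]; ring
      have hdvd : (N : ℤ) ∣ (l.map fun p => Y p.1 j - Y p.2 j).sum - (Y a j - Y b j) := by
        rw [← ZMod.intCast_zmod_eq_zero_iff_dvd, hsub, Int.cast_sub, Int.cast_sub, Int.cast_sub,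
          ← e1', ← e2', sub_self]
      have habs : |(l.map fun p => Y p.1 j - Y p.2 j).sum - (Y a j - Y b j)| < (N : ℤ) := by
        have h1 := hbound l hl j
        have h2 : K * (l.map fun p => ρ p.1 p.2).sum ≤ K * C :=
          mul_le_mul_of_nonneg_left (hlt.le.trans (hC a ha b hb)) hK0
        have h3 : |((Y a j - Y b j : ℤ) : ℝ)| ≤ B := by
          rw [← Int.cast_abs]
          exact_mod_cast hB a ha b hb j
        have h4 : |(((l.map fun p => Y p.1 j - Y p.2 j).sum - (Y a j - Y b j) : ℤ) : ℝ)| < N := by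
          rw [Int.cast_sub]
          refine lt_of_le_of_lt (abs_sub _ _) ?_
          linarith
        rw [← Int.cast_abs] at h4
        exact_mod_cast h4
      have hzero := Int.eq_zero_of_abs_lt_dvd hdvd habs
      omega

end reduction

/-- Main theorem for a torsion-free group. -/
theorem main {G : Type} [Group G] [IsMulTorsionFree G] {ρ : G → G → ℝ} (hρ : BiInvMetric ρ)
    (w : Fin 3 → G)
    (hw : ∀ i j, i ≠ j → Subgroup.zpowers (w i) ⊓ Subgroup.zpowers (w j) = ⊥)
    (A : Finset G)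
    (hA : ∀ a ∈ A, ∀ b ∈ A, a * b ∈ A → a = 1 ∨ b = 1 ∨ a * b = 1 ∨
      ∃ i, a ∈ Subgroup.zpowers (w i) ∧ b ∈ Subgroup.zpowers (w i)) :
    ExactAbelian ρ A := by
  classical
  let e : Fin 3 ⊕ A → Fin 3 ⊕ G := Sum.map id Subtype.val
  refine exact_of_coordinates hρ A (ι := Fin 3 ⊕ A) (fun x j => X w x (e j)) ?_ ?_ ?_
  · intro a ha b hb hab
    have h0 : ∀ i : Fin 3, ex (w i) a = ex (w i) b := fun i => congrFun hab (Sum.inl i)
    have h1 : ∀ c : A, X w a (Sum.inr (c : G)) = X w b (Sum.inr (c : G)) :=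
      fun c => congrFun hab (Sum.inr c)
    by_cases haT : a ∈ TT w
    · by_cases hbT : b ∈ TT w
      · rw [← pr_ex w hw haT, ← pr_ex w hw hbT]
        congr 1
        funext i
        exact h0 i
      · exfalso
        have h2 := h1 ⟨b, hb⟩
        simp only [X_inr_mem w haT, X_self w hbT] at h2
        omega
    · have h2 := h1 ⟨a, ha⟩
      simp only [X_self w haT] at h2
      exact (eq_of_X_pos w (c := a) (x := b) (by omega)).symm
  · intro a ha b hb hab
    funext j
    show X w (a * b) (e j) = X w a (e j) + X w b (e j)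
    rcases hA a ha b hb hab with h | h | h | ⟨i, hai, hbi⟩
    · rw [h, one_mul, X_one]; simp
    · rw [h, mul_one, X_one]; simp
    · rw [h, X_one, eq_inv_of_mul_eq_one_right h, X_inv]; simp
    · have habi : a * b ∈ Subgroup.zpowers (w i) := mul_mem hai hbi
      rcases j with l | c
      · show ex (w l) (a * b) = ex (w l) a + ex (w l) b
        by_cases hl : l = i
        · subst hl; exact ex_mul hai hbi
        · rw [ex_other w hw hl habi, ex_other w hw hl hai, ex_other w hw hl hbi]; simp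
      · show X w (a * b) (Sum.inr (c : G)) = X w a (Sum.inr (c : G)) + X w b (Sum.inr (c : G))
        rw [X_inr_mem w ⟨i, habi⟩, X_inr_mem w ⟨i, hai⟩, X_inr_mem w ⟨i, hbi⟩]; simp
  · intro l hl a ha b hb hab
    have hzero : ∀ x ∈ A, ∀ c : G, c ∉ A → c⁻¹ ∉ A → X w x (Sum.inr c) = 0 := by
      intro x hx c hc hc'
      rcases lt_trichotomy (X w x (Sum.inr c)) 0 with h | h | h
      · exact absurd (eq_inv_of_X_neg w h ▸ hx) hc'
      · exact h
      · exact absurd (eq_of_X_pos w h ▸ hx) hc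
    have hneg : ∀ (x c : G), X w x (Sum.inr c⁻¹) = - X w x (Sum.inr c) := by
      intro x c
      by_cases hx : x ∈ TT w
      · rw [X_inr_mem w hx, X_inr_mem w hx]; simp
      · rw [X_inr_not_mem w hx, X_inr_not_mem w hx, chi_inv_left]
    have hV : ∀ j, V w (l : Multiset (G × G)) j = X w a j - X w b j := by
      intro j
      have hVl : V w (l : Multiset (G × G)) j = (l.map fun p => X w p.1 j - X w p.2 j).sum := by
        simp [V]
      rw [hVl]
      rcases j with i | c
      · exact hab (Sum.inl i)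
      · by_cases hc : c ∈ A
        · exact hab (Sum.inr ⟨c, hc⟩)
        · by_cases hc' : c⁻¹ ∈ A
          · have h1 := hab (Sum.inr ⟨c⁻¹, hc'⟩)
            simp only [e, Sum.map_inr, hneg] at h1
            have h2 : (l.map fun p => -X w p.1 (Sum.inr c) - -X w p.2 (Sum.inr c)).sum =
                - (l.map fun p => X w p.1 (Sum.inr c) - X w p.2 (Sum.inr c)).sum := by
              clear h1 hVl hab hl
              induction l with
              | nil => simp
              | cons p l ih => simp only [List.map_cons, List.sum_cons, ih]; ring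
            rw [h2] at h1
            omega
          · have h1 : (l.map fun p => X w p.1 (Sum.inr c) - X w p.2 (Sum.inr c)).sum = 0 := by
              apply List.sum_eq_zero
              intro z hz
              obtain ⟨p, hp, rfl⟩ := List.mem_map.1 hz
              rw [hzero _ (hl p hp).1 c hc hc', hzero _ (hl p hp).2 c hc hc']
              simp
            rw [h1, hzero a ha c hc hc', hzero b hb c hc hc']
            simp
    have h1 := core w hw hρ _ (l : Multiset (G × G)) rfl a b hV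
    have h2 : C ρ (l : Multiset (G × G)) = (l.map fun p => ρ p.1 p.2).sum := by simp [C]
    rw [h2] at h1
    exact h1

end Pool.Agent.EX61
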