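import Pool.Agent.EX61.DefsB
import Pool.Agent.EX61.Main
import Pool.Agent.EX61.Conj

/-!
Exactness when the values of the metric on `A` differ by a factor of at most two.
-/

set_option linter.unusedSectionVars false

namespace Pool.Agent.EX61

section lists

variable {G : Type*} [Group G] {ρ : G → G → ℝ}

lemma le_cost (hρ : BiInvMetric ρ) {l : List (G × G)} {q : G × G} (hq : q ∈ l) :
    ρ q.1 q.2 ≤ (l.map fun p => ρ p.1 p.2).sum := by
  apply List.single_le_sum
  · intro x hx
    obtain ⟨p, _, rfl⟩ := List.mem_map.1 hx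
    exact hρ.nonneg _ _
  · exact List.mem_map.2 ⟨q, hq, rfl⟩

lemma cost_nonneg (hρ : BiInvMetric ρ) (l : List (G × G)) :
    0 ≤ (l.map fun p => ρ p.1 p.2).sum := by
  apply List.sum_nonneg
  intro x hx
  obtain ⟨p, _, rfl⟩ := List.mem_map.1 hx
  exact hρ.nonneg _ _

/-- a list of pairs has at most one non-trivial pair, or is expensive -/
lemma classify (hρ : BiInvMetric ρ) (c : ℝ) (l : List (G × G))
    (h : ∀ p ∈ l, p.1 ≠ p.2 → c ≤ 2 * ρ p.1 p.2) :
    (∀ p ∈ l, p.1 = p.2) ∨
    (∃ l1 p l2, l = l1 ++ p :: l2 ∧ (∀ q ∈ l1, q.1 = q.2) ∧ (∀ q ∈ l2, q.1 = q.2)) ∨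
    c ≤ (l.map fun p => ρ p.1 p.2).sum := by
  induction l with
  | nil => left; simp
  | cons p l ih =>
    rcases ih (fun q hq => h q (List.mem_cons_of_mem _ hq)) with h1 | ⟨l1, q, l2, hl, h1, h2⟩ | h1
    · right; left
      exact ⟨[], p, l, rfl, by simp, h1⟩
    · by_cases hp : p.1 = p.2
      · right; left
        refine ⟨p :: l1, q, l2, by rw [hl]; rfl, ?_, h2⟩
        intro r hr
        rcases List.mem_cons.1 hr with hr | hr
        · rw [hr]; exact hp
        · exact h1 r hr
      · by_cases hq : q.1 = q.2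
        · right; left
          refine ⟨[], p, l, rfl, by simp, ?_⟩
          intro r hr
          rw [hl] at hr
          rcases List.mem_append.1 hr with hr | hr
          · exact h1 r hr
          · rcases List.mem_cons.1 hr with hr | hr
            · rw [hr]; exact hq
            · exact h2 r hr
        · right; right
          have hql : q ∈ l := by rw [hl]; simp
          have e1 := h p List.mem_cons_self hp
          have e2 := h q (List.mem_cons_of_mem _ hql) hq
          have e3 := le_cost hρ hql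
          rw [List.map_cons, List.sum_cons]
          linarith
    · right; right
      rw [List.map_cons, List.sum_cons]
      have := hρ.nonneg p.1 p.2
      linarith

lemma prod_eq_of_trivial {F : Type*} [Group F] (ν : G → F) (l : List (G × G))
    (h : ∀ p ∈ l, p.1 = p.2) :
    (l.map fun p => ν p.1).prod = (l.map fun p => ν p.2).prod := by
  congr 1
  apply List.map_congr_left
  intro p hp
  rw [h p hp]

lemma BiInvMetric.isConj (hρ : BiInvMetric ρ) {a b p q : G} (h : IsConj (a⁻¹ * b) (p⁻¹ * q)) :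
    ρ a b = ρ p q := by
  obtain ⟨c, hc⟩ := isConj_iff.1 h
  have e1 : ρ a b = ρ (a⁻¹ * b) 1 := by rw [hρ.inv_mul_one, hρ.symm]
  have e2 : ρ p q = ρ (p⁻¹ * q) 1 := by rw [hρ.inv_mul_one, hρ.symm]
  have e3 : ρ (c * (a⁻¹ * b) * c⁻¹) 1 = ρ (a⁻¹ * b) 1 := by
    rw [hρ.mul_comm_one (c * (a⁻¹ * b)) c⁻¹, ← mul_assoc, inv_mul_cancel, one_mul]
  rw [e1, e2, ← hc, e3]

end lists

/-- Exactness when `max ρ ≤ 2 min ρ` on `A`. -/
theorem exact_of_ratio {α : Type} {ρ : FreeGroup α → FreeGroup α → ℝ} (hρ : BiInvMetric ρ)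
    (A : Finset (FreeGroup α))
    (h2 : ∀ a ∈ A, ∀ b ∈ A, ∀ p ∈ A, ∀ q ∈ A, p ≠ q → ρ a b ≤ 2 * ρ p q) :
    Exact ρ A := by
  classical
  let D : Finset (FreeGroup α × FreeGroup α) :=
    ((A ×ˢ A) ×ˢ (A ×ˢ A)).image fun t => (t.1.1⁻¹ * t.1.2, t.2.1⁻¹ * t.2.2)
  have hD : ∀ a ∈ A, ∀ b ∈ A, ∀ p ∈ A, ∀ q ∈ A, (a⁻¹ * b, p⁻¹ * q) ∈ D := by
    intro a ha b hb p hp q hq
    exact Finset.mem_image.2 ⟨((a, b), (p, q)), by simp [ha, hb, hp, hq], rfl⟩
  obtain ⟨H, i1, i2, φ, hφ⟩ := conj_separable_finset D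
  have hφ' : ∀ a ∈ A, ∀ b ∈ A, ∀ p ∈ A, ∀ q ∈ A,
      IsConj (φ a⁻¹ * φ b) (φ p⁻¹ * φ q) → IsConj (a⁻¹ * b) (p⁻¹ * q) := by
    intro a ha b hb p hp q hq hc
    refine hφ _ (hD a ha b hb p hp q hq) ?_
    simp only
    rw [map_mul, map_mul]
    exact hc
  let K : Subgroup H := Subgroup.closure (φ '' (A : Set (FreeGroup α)))
  let ν : FreeGroup α → K := fun x => if hx : x ∈ A then
    ⟨φ x, Subgroup.subset_closure ⟨x, hx, rfl⟩⟩ else 1
  have hν : ∀ x ∈ A, ((ν x : K) : H) = φ x := by
    intro x hx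
    simp only [ν, dif_pos hx]
  have hinj : ∀ x ∈ A, ∀ z ∈ A, φ x = φ z → x = z := by
    intro x hx z hz hxz
    have h1 := hφ' x hx z hz x hx x hx (by rw [← hxz])
    rw [inv_mul_cancel] at h1
    have h3 := isConj_one_left.1 h1
    exact (inv_mul_eq_one.1 h3)
  refine ⟨K, inferInstance, inferInstance, ν, ⟨?_, ?_⟩, ?_, ?_⟩
  · intro x hx z hz hxz
    apply hinj x hx z hz
    rw [← hν x hx, ← hν z hz, hxz]
  · intro a ha b hb hab
    apply Subtype.ext
    rw [hν _ hab, Subgroup.coe_mul, hν a ha, hν b hb, map_mul]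
  · have h1 : ν '' (A : Set (FreeGroup α)) =
        (Subtype.val : K → H) ⁻¹' (φ '' (A : Set (FreeGroup α))) := by
      ext z
      constructor
      · rintro ⟨x, hx, rfl⟩
        exact ⟨x, hx, (hν x hx).symm⟩
      · rintro ⟨x, hx, hz⟩
        exact ⟨x, hx, Subtype.ext (by rw [hν x hx, hz])⟩
    rw [h1]
    exact Subgroup.closure_closure_coe_preimage
  · intro a ha b hb
    constructor
    · exact ⟨[(a, b)], by simp, by simp [ha, hb], by simp, by simp, by simp⟩
    · rintro c ⟨l, -, hl, hla, hlb, rfl⟩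
      by_cases hab : a = b
      · rw [hab, hρ.self]; exact cost_nonneg hρ l
      rcases classify hρ (ρ a b) l
        (fun p hp hne => h2 a ha b hb p.1 (hl p hp).1 p.2 (hl p hp).2 hne) with
        h1 | ⟨l1, p, l2, hl', h1, h3⟩ | h1
      · exfalso
        apply hab
        apply hinj a ha b hb
        rw [← hν a ha, ← hν b hb, ← hla, ← hlb, prod_eq_of_trivial ν l h1]
      · have hp : p ∈ l := by rw [hl']; simp
        have hpA := hl p hp
        have e1 := prod_eq_of_trivial ν l1 h1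
        have e2 := prod_eq_of_trivial ν l2 h3
        rw [hl', List.map_append, List.map_cons, List.prod_append, List.prod_cons] at hla hlb
        rw [← e1, ← e2] at hlb
        set U := (l1.map fun p => ν p.1).prod with hU
        set W := (l2.map fun p => ν p.1).prod with hW
        have hc : IsConj ((ν a)⁻¹ * ν b) ((ν p.1)⁻¹ * ν p.2) := by
          rw [isConj_iff]
          refine ⟨W, ?_⟩
          rw [← hla, ← hlb]
          group
        have hc' := K.subtype.map_isConj hc
        have hc'' : IsConj (φ a⁻¹ * φ b) (φ p.1⁻¹ * φ p.2) := by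
          rw [map_inv, map_inv, ← hν a ha, ← hν b hb, ← hν _ hpA.1, ← hν _ hpA.2]
          simpa using hc'
        have hc3 := hφ' a ha b hb p.1 hpA.1 p.2 hpA.2 hc''
        rw [hρ.isConj hc3]
        exact le_cost hρ hp
      · exact h1

end Pool.Agent.EX61
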